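import Mathlib

set_option autoImplicit false

/-! Norms of values of `x² - a y²` in finite extensions. -/

namespace Pool.Agent.Zk20.ET

open Matrix

/-- the norm of `x² - a y²`, `a` in the ground field, is again of this form -/
theorem norm_sq_sub {F L : Type*} [Field F] [Field L] [Algebra F L] [FiniteDimensional F L]
    (a : F) (x y : L) :
    ∃ u v : F, Algebra.norm F (x ^ 2 - algebraMap F L a * y ^ 2) = u ^ 2 - a * v ^ 2 := by
  classical
  let bs := Module.finBasis F L
  let n := Module.finrank F L
  let M : Matrix (Fin n) (Fin n) F := Algebra.leftMulMatrix bs x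
  let N : Matrix (Fin n) (Fin n) F := Algebra.leftMulMatrix bs y
  have hMN : M * N = N * M := by
    show Algebra.leftMulMatrix bs x * Algebra.leftMulMatrix bs y =
      Algebra.leftMulMatrix bs y * Algebra.leftMulMatrix bs x
    rw [← map_mul, ← map_mul, mul_comm]
  let E := QuadraticAlgebra F a 0
  let c : F →+* E := algebraMap F E
  let w : E := QuadraticAlgebra.omega
  have hw : w * w = c a := by
    have := QuadraticAlgebra.omega_mul_omega_eq_add (R := F) (a := a) (b := 0)
    show (QuadraticAlgebra.omega : QuadraticAlgebra F a 0) * QuadraticAlgebra.omega = _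
    rw [this]
    simp [c, E, Algebra.algebraMap_eq_smul_one]
  have hsw : star w = - w := by
    show star (QuadraticAlgebra.omega : QuadraticAlgebra F a 0) = - QuadraticAlgebra.omega
    ext <;> simp [QuadraticAlgebra.omega]
  have hsc : ∀ r : F, star (c r) = c r := by
    intro r
    show star (algebraMap F (QuadraticAlgebra F a 0) r) = algebraMap F (QuadraticAlgebra F a 0) r
    ext <;> simp
  let P : Matrix (Fin n) (Fin n) E := c.mapMatrix M
  let R : Matrix (Fin n) (Fin n) E := c.mapMatrix N
  have hPR : P * R = R * P := by
    show c.mapMatrix M * c.mapMatrix N = c.mapMatrix N * c.mapMatrix M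
    rw [← RingHom.map_mul, ← RingHom.map_mul]
    exact congrArg _ hMN
  let D : E := (P + w • R).det
  have hD : star D = (P - w • R).det := by
    have h1 : star D = (starRingEnd E) D := rfl
    rw [h1, RingHom.map_det]
    congr 1
    refine Matrix.ext fun i j => ?_
    show star (c (M i j) + w * c (N i j)) = c (M i j) - w * c (N i j)
    rw [star_add, star_mul, hsc, hsc, hsw]
    ring
  have h1 : (P + w • R) * (P - w • R) = c.mapMatrix (M ^ 2 - a • N ^ 2) := by
    have h2 : c.mapMatrix (a • N ^ 2) = (w * w) • (R * R) := by
      refine Matrix.ext fun i j => ?_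
      rw [hw]
      show c ((a • N ^ 2) i j) = c a * (R * R) i j
      rw [Matrix.smul_apply, smul_eq_mul, map_mul]
      congr 1
      have : R * R = c.mapMatrix (N ^ 2) := by rw [pow_two, map_mul]
      rw [this]
      rfl
    rw [map_sub, h2, map_pow]
    show (P + w • R) * (P - w • R) = P ^ 2 - (w * w) • (R * R)
    rw [mul_sub, add_mul, add_mul, Matrix.mul_smul, Matrix.smul_mul, Matrix.mul_smul,
      Matrix.smul_mul, hPR, smul_smul, pow_two]
    abel
  have h3 : c ((M ^ 2 - a • N ^ 2).det) = c (QuadraticAlgebra.norm D) := by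
    have h4 := QuadraticAlgebra.algebraMap_norm_eq_mul_star D
    have h5 : c (QuadraticAlgebra.norm D) = D * star D := h4
    rw [h5, hD, ← Matrix.det_mul, h1, RingHom.map_det]
  have hinj : Function.Injective c := by
    intro r s h
    have := congrArg QuadraticAlgebra.re h
    simpa [c, E] using this
  refine ⟨D.re, D.im, ?_⟩
  rw [Algebra.norm_eq_matrix_det bs]
  have h6 : Algebra.leftMulMatrix bs (x ^ 2 - algebraMap F L a * y ^ 2) = M ^ 2 - a • N ^ 2 := by
    rw [map_sub, map_mul, map_pow, map_pow, Algebra.algebraMap_eq_smul_one, map_smul, map_one,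
      smul_one_mul]
  rw [h6, hinj h3, QuadraticAlgebra.norm_def]
  ring

end Pool.Agent.Zk20.ET
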