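import Pool.Agent.TH188.ET.Struct
import Pool.Agent.TH188.ET.K2
import Pool.Agent.Zk20.ET.Norm

set_option autoImplicit false

/-! Relations from slots descend along odd algebraic extensions. -/

namespace Pool.Agent.Zk20.ET

open scoped TensorProduct
open Pool.Agent.H315R3.ETC Pool.Agent.TH188.ET Module

/-- an algebraic extension all of whose finite subextensions have odd degree -/
structure OddExt (F K : Type*) [Field F] [Field K] [Algebra F K] : Prop where
  alg : Algebra.IsAlgebraic F K
  odd : ∀ L : IntermediateField F K, FiniteDimensional F L → Odd (finrank F L)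

section
variable {F K : Type*} [Field F] [Field K] [Algebra F K]

/-- functoriality of `K₂/2` -/
theorem relation_up (n : ℕ) (a b : Fin n → Fˣ) (h : ∑ i, sy (a i) (b i) = 0) :
    ∑ i, sy (Units.map (algebraMap F K : F →* K) (a i))
      (Units.map (algebraMap F K : F →* K) (b i)) = 0 := by
  let u : Additive Fˣ →ₗ[ℤ] Additive Kˣ :=
    (MonoidHom.toAdditive (Units.map (algebraMap F K : F →* K))).toIntLinearMap
  let f : (Additive Fˣ ⊗[ℤ] Additive Fˣ) →+ (Additive Kˣ ⊗[ℤ] Additive Kˣ) :=
    (TensorProduct.map u u).toAddMonoidHom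
  have hf : steinberg F ≤ (steinberg K).comap f := by
    unfold steinberg
    rw [AddSubgroup.closure_le]
    rintro t (⟨x, y, hxy, rfl⟩ | ⟨s, rfl⟩)
    · refine AddSubgroup.subset_closure (Or.inl ⟨Units.map (algebraMap F K : F →* K) x,
        Units.map (algebraMap F K : F →* K) y, ?_, ?_⟩)
      · show algebraMap F K x + algebraMap F K y = 1
        rw [← map_add, hxy, map_one]
      · rfl
    · exact AddSubgroup.subset_closure (Or.inr ⟨f s, map_add f s s⟩)
  let g : K2 F →+ K2 K := QuotientAddGroup.map (steinberg F) (steinberg K) f hf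
  have hg : ∀ x y : Fˣ, g (sy x y) = sy (Units.map (algebraMap F K : F →* K) x)
      (Units.map (algebraMap F K : F →* K) y) := by
    intro x y
    rfl
  have := congrArg g h
  rw [map_sum, map_zero] at this
  simpa only [hg] using this

/-- relations from slots descend to `F` -/
theorem relations_down (hK : OddExt F K) (h : RelationsFromSlots K) : RelationsFromSlots F := by
  classical
  intro n a b hrel
  obtain ⟨c, hc, hb⟩ := h n _ _ (relation_up (K := K) n a b hrel)
  choose s hs using hb
  choose x y hxy using hc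
  haveI := hK.alg
  let Z : Set K := (Set.range fun i => ((s i : Kˣ) : K)) ∪ ((Set.range x) ∪ (Set.range y))
  have hZ : Z.Finite := (Set.finite_range _).union ((Set.finite_range _).union (Set.finite_range _))
  let L : IntermediateField F K := IntermediateField.adjoin F Z
  haveI hfd : FiniteDimensional F L := by
    haveI : Finite Z := hZ
    exact IntermediateField.finiteDimensional_adjoin
      (fun z _ => Algebra.IsIntegral.isIntegral z)
  have hodd := hK.odd L hfd
  obtain ⟨k, hk⟩ := hodd
  have hsL : ∀ i, ((s i : Kˣ) : K) ∈ L := fun i =>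
    IntermediateField.subset_adjoin F Z (Or.inl ⟨i, rfl⟩)
  have hxL : ∀ I, x I ∈ L := fun I =>
    IntermediateField.subset_adjoin F Z (Or.inr (Or.inl ⟨I, rfl⟩))
  have hyL : ∀ I, y I ∈ L := fun I =>
    IntermediateField.subset_adjoin F Z (Or.inr (Or.inr ⟨I, rfl⟩))
  let s' : Fin n → L := fun i => ⟨s i, hsL i⟩
  let x' : Finset (Fin n) → L := fun I => ⟨x I, hxL I⟩
  let y' : Finset (Fin n) → L := fun I => ⟨y I, hyL I⟩
  let A : Finset (Fin n) → F := fun I => ((∏ i ∈ I, a i : Fˣ) : F)
  let c' : Finset (Fin n) → L := fun I => x' I ^ 2 - algebraMap F L (A I) * y' I ^ 2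
  have hc' : ∀ I, ((c' I : L) : K) = (c I : K) := by
    intro I
    rw [hxy I]
    show (x I) ^ 2 - algebraMap F K (A I) * y I ^ 2 = _
    congr 2
    show algebraMap F K ((∏ i ∈ I, a i : Fˣ) : F) = _
    rw [← map_prod]
    rfl
  have hne : ∀ I, Algebra.norm F (c' I) ≠ 0 := by
    intro I
    rw [Algebra.norm_ne_zero_iff]
    intro h0
    apply (c I).ne_zero
    rw [← hc' I, h0]
    rfl
  have hsne : ∀ i, Algebra.norm F (s' i) ≠ 0 := by
    intro i
    rw [Algebra.norm_ne_zero_iff]
    intro h0
    apply (s i).ne_zero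
    have : ((s' i : L) : K) = 0 := by rw [h0]; rfl
    exact this
  refine ⟨fun I => Units.mk0 _ (hne I), ?_, ?_⟩
  · intro I
    obtain ⟨u, v, huv⟩ := norm_sq_sub (A I) (x' I) (y' I)
    exact ⟨u, v, huv⟩
  · intro i
    have h1 : algebraMap F L (b i) = s' i ^ 2 * ∏ I with i ∈ I, c' I := by
      apply Subtype.ext
      have h2 := congrArg (fun t : Kˣ => (t : K)) (hs i)
      have h3 : ((s i ^ 2 * ∏ I with i ∈ I, c I : Kˣ) : K) =
          (s i : K) ^ 2 * ∏ I with i ∈ I, (c I : K) := by
        rw [Units.val_mul, Units.val_pow_eq_pow_val, Units.coe_prod]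
      show algebraMap F K (b i) = ((s' i ^ 2 * ∏ I with i ∈ I, c' I : L) : K)
      have h4 : ((s' i ^ 2 * ∏ I with i ∈ I, c' I : L) : K) =
          (s i : K) ^ 2 * ∏ I with i ∈ I, (c I : K) := by
        have : (algebraMap L K) (s' i ^ 2 * ∏ I with i ∈ I, c' I) =
            (s i : K) ^ 2 * ∏ I with i ∈ I, (c I : K) := by
          rw [map_mul, map_pow, map_prod]
          congr 1
          exact Finset.prod_congr rfl fun I _ => hc' I
        exact this
      rw [h4, ← h3]
      exact h2
    have h5 := congrArg (Algebra.norm F) h1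
    rw [Algebra.norm_algebraMap, map_mul, map_pow, map_prod, hk] at h5
    have hb0 : (b i : F) ≠ 0 := (b i).ne_zero
    refine ⟨Units.mk0 (Algebra.norm F (s' i)) (hsne i) * (b i ^ k)⁻¹, ?_⟩
    ext
    rw [Units.val_mul, Units.val_pow_eq_pow_val, Units.coe_prod, Units.val_mul, Units.val_mk0,
      Units.val_inv_eq_inv_val, Units.val_pow_eq_pow_val]
    have h6 : ∏ I with i ∈ I, ((Units.mk0 _ (hne I) : Fˣ) : F) =
        ∏ I with i ∈ I, Algebra.norm F (c' I) := rfl
    rw [h6]
    have hbk : (b i : F) ^ k ≠ 0 := pow_ne_zero _ hb0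
    field_simp
    linear_combination h5

/-- finitely many square classes descend -/
theorem finSq_down (hK : OddExt F K) (h : FinSq K) : FinSq F := by
  unfold FinSq at h ⊢
  let ι : Fˣ →* Kˣ := Units.map (algebraMap F K : F →* K)
  have hle : (powMonoidHom 2 : Fˣ →* Fˣ).range ≤
      ((powMonoidHom 2 : Kˣ →* Kˣ).range).comap ι := by
    rintro _ ⟨x, rfl⟩
    exact ⟨ι x, (map_pow ι x 2).symm⟩
  let g := QuotientGroup.map _ _ ι hle
  haveI := hK.alg
  refine Finite.of_injective g ?_
  rw [injective_iff_map_eq_one]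
  intro t
  induction t using QuotientGroup.induction_on with
  | H z =>
    intro hz
    have h1 : (QuotientGroup.mk (ι z) : Kˣ ⧸ (powMonoidHom 2 : Kˣ →* Kˣ).range) = 1 := hz
    rw [QuotientGroup.eq_one_iff] at h1
    obtain ⟨w, hw⟩ := h1
    rw [QuotientGroup.eq_one_iff]
    have hw' : (w : K) ^ 2 = algebraMap F K z := by
      have := congrArg (fun t : Kˣ => (t : K)) hw
      exact this
    let L : IntermediateField F K := IntermediateField.adjoin F {(w : K)}
    haveI hfd : FiniteDimensional F L :=
      IntermediateField.adjoin.finiteDimensional (Algebra.IsIntegral.isIntegral (w : K))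
    obtain ⟨k, hk⟩ := hK.odd L hfd
    let w' : L := ⟨w, IntermediateField.subset_adjoin F _ rfl⟩
    have h2 : w' ^ 2 = algebraMap F L z := Subtype.ext hw'
    have h3 := congrArg (Algebra.norm F) h2
    rw [Algebra.norm_algebraMap, map_pow, hk] at h3
    have hz0 : (z : F) ≠ 0 := z.ne_zero
    have hw0 : Algebra.norm F w' ≠ 0 := by
      intro h0
      rw [h0] at h3
      exact pow_ne_zero (2 * k + 1) hz0 (by rw [← h3]; ring)
    refine ⟨Units.mk0 _ hw0 * (z ^ k)⁻¹, ?_⟩
    ext
    show ((Units.mk0 (Algebra.norm F w') hw0 * (z ^ k)⁻¹ : Fˣ) : F) ^ 2 = z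
    rw [Units.val_mul, Units.val_mk0, Units.val_inv_eq_inv_val, Units.val_pow_eq_pow_val]
    have hbk : (z : F) ^ k ≠ 0 := pow_ne_zero _ hz0
    field_simp
    linear_combination h3

end

end Pool.Agent.Zk20.ET
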