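import Pool.Agent.W622.ETG.Final
import Pool.Agent.W622.ETG.Bri

set_option autoImplicit false

/-! Extension of symbols passes to retracts. -/

namespace Pool.Agent.Zk20.ET

open Pool.Agent.H315R3.ETC

/-- `χ` is a symbol on the subgroup `W` of `G`: on `W × G` it is additive in both variables, and
`χ(w,b) = 0` for all `w ∈ W`, `b ∈ G` with `q(w,b) = 0` -/
def IsSymbol (S : QData) (W : Subgroup S.G) (χ : S.G → S.G → ZMod 2) : Prop :=
  (∀ a ∈ W, ∀ b ∈ W, ∀ c, χ (a * b) c = χ a c + χ b c) ∧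
  (∀ a ∈ W, ∀ b c, χ a (b * c) = χ a b + χ a c) ∧
  (∀ a ∈ W, ∀ b, S.q a b = S.zero → χ a b = 0)

/-- every symbol on a subgroup `W` agrees on `W × G` with a symbol on `G` -/
def SymbolsExtend (S : QData) : Prop :=
  ∀ (W : Subgroup S.G) (χ : S.G → S.G → ZMod 2), IsSymbol S W χ →
    ∃ χ' : S.G → S.G → ZMod 2, IsSymbol S ⊤ χ' ∧ ∀ a ∈ W, ∀ b, χ' a b = χ a b

theorem elem_iff {S : QData} (hS : IsQuat S) (hfin : Finite S.G) :
    Elem S ↔ SymbolsExtend S := by
  obtain ⟨hcore, hPL, hout, hconv⟩ := Pool.Agent.W622.ETG.all_parts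
  refine ⟨fun h => hconv S hS h, fun h => ?_⟩
  have hMP : Pool.Agent.W622.ETG.MP S := by
    intro W l f hl hf h0
    refine h W _ ⟨?_, ?_, h0⟩
    · intro a _ b _ c
      show l (a * b) * f c = l a * f c + l b * f c
      rw [hl, add_mul]
    · intro a _ b c
      show l a * f (b * c) = l a * f b + l a * f c
      rw [hf, mul_add]
  obtain ⟨V, i1, i2, i3, e, A, hA, hH, hiso⟩ :=
    Pool.Agent.W622.ETG.bri_prod hPL S hS hfin hMP
  exact Elem.iso _ _ (hout V e A (hcore V e A hA hH)) hiso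

/-- symbols extend in a retract -/
theorem retract_symbols {S T : QData} (hT : SymbolsExtend T)
    (i : S.G →* T.G) (p : T.G →* S.G) (hpi : ∀ a, p (i a) = a)
    (h1 : ∀ a b, S.q a b = S.zero → T.q (i a) (i b) = T.zero)
    (h2 : ∀ a b, T.q (i a) b = T.zero → S.q a (p b) = S.zero) : SymbolsExtend S := by
  rintro W χ ⟨ha, hb, hc⟩
  obtain ⟨χ', ⟨ka, kb, kc⟩, hag⟩ := hT (W.map i) (fun x y => χ (p x) (p y)) (by
    refine ⟨?_, ?_, ?_⟩
    · rintro _ ⟨a, haW, rfl⟩ _ ⟨b, hbW, rfl⟩ c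
      show χ (p (i a * i b)) (p c) = χ (p (i a)) (p c) + χ (p (i b)) (p c)
      rw [map_mul, hpi, hpi]
      exact ha a haW b hbW _
    · rintro _ ⟨a, haW, rfl⟩ b c
      show χ (p (i a)) (p (b * c)) = χ (p (i a)) (p b) + χ (p (i a)) (p c)
      rw [map_mul, hpi]
      exact hb a haW _ _
    · rintro _ ⟨a, haW, rfl⟩ b hab
      show χ (p (i a)) (p b) = 0
      rw [hpi]
      exact hc a haW _ (h2 a b hab))
  refine ⟨fun a b => χ' (i a) (i b), ⟨?_, ?_, ?_⟩, ?_⟩
  · intro a _ b _ c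
    show χ' (i (a * b)) (i c) = _
    rw [map_mul]
    exact ka _ trivial _ trivial _
  · intro a _ b c
    show χ' (i a) (i (b * c)) = _
    rw [map_mul]
    exact kb _ trivial _ _
  · intro a _ b hab
    exact kc _ trivial _ (h1 a b hab)
  · intro a haW b
    show χ' (i a) (i b) = χ a b
    rw [hag (i a) ⟨a, haW, rfl⟩ (i b)]
    show χ (p (i a)) (p (i b)) = χ a b
    rw [hpi, hpi]

/-- the structure on the subgroup `H` -/
def restr (T : QData) (H : Subgroup T.G) (hn : T.neg ∈ H) : QData :=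
  ⟨H, T.Q, ⟨T.neg, hn⟩, fun a b => T.q a b, T.zero⟩

/-- a retraction for the structure -/
structure Retraction (T : QData) (H : Subgroup T.G) (p : T.G →* T.G) : Prop where
  mem : ∀ x, p x ∈ H
  fix : ∀ a ∈ H, p a = a
  proj : ∀ a ∈ H, ∀ x, T.q a x = T.zero → T.q a (p x) = T.zero

theorem restr_isQuat {T : QData} (hT : IsQuat T) {H : Subgroup T.G} (hn : T.neg ∈ H)
    {p : T.G →* T.G} (hp : Retraction T H p) : IsQuat (restr T H hn) := by
  refine ⟨?_, ?_, ?_, ?_, ?_⟩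
  · intro a
    exact Subtype.ext (hT.exp2 _)
  · intro a
    exact hT.qs1 _
  · intro a b
    exact hT.qs2 _ _
  · intro a b c
    exact hT.qs3 _ _ _
  · rintro ⟨a, ha⟩ ⟨b, hb⟩ ⟨c, hc⟩ ⟨d, hd⟩ h
    obtain ⟨x, h1, h2⟩ := hT.qs4 a b c d h
    refine ⟨⟨p x, hp.mem x⟩, ?_, ?_⟩
    · show T.q a b = T.q a (p x)
      rw [hT.qs3] at h1 ⊢
      have := hp.proj a ha _ h1
      rwa [map_mul, hp.fix b hb] at this
    · show T.q c d = T.q c (p x)
      rw [hT.qs3] at h2 ⊢
      have := hp.proj c hc _ h2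
      rwa [map_mul, hp.fix d hd] at this

theorem restr_symbols {T : QData} (hT : SymbolsExtend T) {H : Subgroup T.G} (hn : T.neg ∈ H)
    {p : T.G →* T.G} (hp : Retraction T H p) : SymbolsExtend (restr T H hn) := by
  let i : (restr T H hn).G →* T.G := H.subtype
  let p' : T.G →* (restr T H hn).G := p.codRestrict H hp.mem
  refine retract_symbols hT i p' ?_ ?_ ?_
  · rintro ⟨a, ha⟩
    exact Subtype.ext (hp.fix a ha)
  · intro a b h
    exact h
  · rintro ⟨a, ha⟩ b h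
    exact hp.proj a ha b h

theorem restr_elem {T : QData} (hT : IsQuat T) (hfin : Finite T.G) (hel : Elem T)
    {H : Subgroup T.G} (hn : T.neg ∈ H) {p : T.G →* T.G} (hp : Retraction T H p) :
    IsQuat (restr T H hn) ∧ Elem (restr T H hn) := by
  have h1 := restr_isQuat hT hn hp
  have h2 : Finite (restr T H hn).G := inferInstanceAs (Finite H)
  exact ⟨h1, (elem_iff h1 h2).mpr (restr_symbols ((elem_iff hT hfin).mp hel) hn hp)⟩

/-- automorphisms of a structure -/
def IsAut (T : QData) (φ : MulAut T.G) : Prop :=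
  φ T.neg = T.neg ∧ ∀ a b c d : T.G, T.q a b = T.q c d ↔ T.q (φ a) (φ b) = T.q (φ c) (φ d)

/-- the elements fixed by all members of `Γ` -/
def fixedBy {G : Type} [CommGroup G] (Γ : Subgroup (MulAut G)) : Subgroup G where
  carrier := {a | ∀ φ ∈ Γ, φ a = a}
  mul_mem' := by
    intro a b ha hb φ hφ
    rw [map_mul, ha φ hφ, hb φ hφ]
  one_mem' := fun φ _ => map_one φ
  inv_mem' := by
    intro a ha φ hφ
    rw [map_inv, ha φ hφ]

theorem mem_fixedBy {G : Type} [CommGroup G] {Γ : Subgroup (MulAut G)} {a : G} :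
    a ∈ fixedBy Γ ↔ ∀ φ ∈ Γ, φ a = a := Iff.rfl

theorem q_one' {T : QData} (hT : IsQuat T) (a : T.G) : T.q a 1 = T.zero := by
  have h : T.q a a = T.q a a := rfl
  have h2 := (hT.qs3 a a a).mp h
  rwa [hT.exp2] at h2

theorem q_mul' {T : QData} (hT : IsQuat T) {a b c : T.G} (hb : T.q a b = T.zero)
    (hc : T.q a c = T.zero) : T.q a (b * c) = T.zero :=
  (hT.qs3 a b c).mp (hb.trans hc.symm)

theorem aut_zero {T : QData} (hT : IsQuat T) {φ : MulAut T.G} (hφ : IsAut T φ) {a b : T.G}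
    (h : T.q a b = T.zero) : T.q (φ a) (φ b) = T.zero := by
  have h1 : T.q a b = T.q 1 1 := h.trans (q_one' hT 1).symm
  rw [hφ.2] at h1
  rw [h1, map_one]
  exact q_one' hT 1

/-- the product over `Γ` is a retraction -/
theorem retraction_of_odd {T : QData} (hT : IsQuat T) (Γ : Subgroup (MulAut T.G))
    (hΓ : ∀ φ ∈ Γ, IsAut T φ) [Finite Γ] (hodd : Odd (Nat.card Γ)) :
    ∃ p : T.G →* T.G, Retraction T (fixedBy Γ) p := by
  classical
  have := Fintype.ofFinite Γ
  let p : T.G →* T.G :=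
    { toFun := fun x => ∏ φ : Γ, φ.1 x
      map_one' := by simp
      map_mul' := by
        intro x y
        simp only [map_mul]
        exact Finset.prod_mul_distrib }
  refine ⟨p, ⟨?_, ?_, ?_⟩⟩
  · intro x ψ hψ
    show ψ (∏ φ : Γ, φ.1 x) = ∏ φ : Γ, φ.1 x
    rw [map_prod]
    exact Fintype.prod_equiv (Equiv.mulLeft (⟨ψ, hψ⟩ : Γ)) _ _ (fun φ => rfl)
  · intro a ha
    show (∏ φ : Γ, φ.1 a) = a
    have h1 : ∀ φ : Γ, φ.1 a = a := fun φ => ha φ.1 φ.2
    simp only [h1, Finset.prod_const, Finset.card_univ]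
    rw [← Nat.card_eq_fintype_card]
    obtain ⟨k, hk⟩ := hodd
    rw [hk, pow_succ, pow_mul, pow_two, hT.exp2, one_pow, one_mul]
  · intro a ha x hx
    show T.q a (∏ φ : Γ, φ.1 x) = T.zero
    have h1 : ∀ φ : Γ, T.q a (φ.1 x) = T.zero := by
      intro φ
      have := aut_zero hT (hΓ φ.1 φ.2) hx
      rwa [ha φ.1 φ.2] at this
    have h2 : ∀ s : Finset Γ, T.q a (∏ φ ∈ s, φ.1 x) = T.zero := by
      intro s
      induction s using Finset.induction_on with
      | empty => simpa using q_one' hT a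
      | insert i s hi ih =>
        rw [Finset.prod_insert hi]
        exact q_mul' hT (h1 i) ih
    exact h2 Finset.univ

theorem neg_mem_fixedBy {T : QData} (Γ : Subgroup (MulAut T.G)) (hΓ : ∀ φ ∈ Γ, IsAut T φ) :
    T.neg ∈ fixedBy Γ := fun φ hφ => (hΓ φ hφ).1

end Pool.Agent.Zk20.ET
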